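import Pool.Agent.W5h32.TX.Inh

/-!
# Toral extensions of diffeomorphisms of the circle
-/

set_option autoImplicit false
set_option linter.unusedSectionVars false

open scoped Manifold ContDiff Topology
open Filter Set Metric MeasureTheory

universe u v w

namespace Pool.Agent.W5h32.TX

open Pool.Agent.H718R2.G Pool.Agent.W5h32.PT
open Pool.Agent.R773.TE (ProdDiff proj)

variable {n d l k : ℕ} {N : Type u} [TopologicalSpace N] [T2Space N] [CompactSpace N]
  [ChartedSpace (V n) N] [IsManifold (𝓡 n) ∞ N]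
  {B : Type v} [TopologicalSpace B] [T2Space B] [CompactSpace B] [ChartedSpace (V d) B]
  [IsManifold (𝓡 d) ∞ B]
  {K : Type w} [TopologicalSpace K] [ChartedSpace (V l) K] [IsManifold (𝓡 l) ∞ K] {r : ℕ∞}
  {Θ : ProdDiff n d l N B K} {c : (Fin k → ℝ) → K → K} {A : Matrix (Fin k) (Fin k) ℤ}
  {F : DiffM n N r}

theorem main_circle (hr : 1 ≤ r) (hd : d = 1) (σ : B ≃ₜ AddCircle (1 : ℝ))
    (H : IsToralExt Θ c A F) : Near F fun G => IsToralExt Θ c A G ∧ TameAttr G := by
  subst hd
  rcases isEmpty_or_nonempty N with hN | ⟨⟨z⟩⟩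
  · intro U _ hFU
    exact ⟨F, hFU, H, (tame_of_empty _).attr⟩
  have hK : Nonempty K := ⟨(Θ.symm z).2⟩
  obtain ⟨f, hf⟩ := exists_base (Θ := Θ) H.trans H.torus H.norm
  exact main_inherit hr H hf (near_tame_circle hr σ f)

end Pool.Agent.W5h32.TX
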