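import Pool.Agent.TH80.OMS.KSDil

/-!
# Making a periodic point nondegenerate, and persistence of such points in dimension one
-/

set_option autoImplicit false
set_option linter.unusedSectionVars false

open scoped Manifold ContDiff Topology
open Filter Set Metric

universe u

namespace Pool.Agent.W5h32.TX

open Pool.Agent.H718R2.G Pool.Agent.W564.SC Pool.Agent.TH290.CL Pool.Agent.TH80.CLX
  Pool.Agent.TH80.OMS

section

variable {n : ℕ} {N : Type u} [TopologicalSpace N] [ChartedSpace (V n) N] [IsManifold (𝓡 n) ∞ N]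
  [T2Space N] [CompactSpace N]

/-- A periodic point can be made nondegenerate by a small perturbation. -/
theorem dil_point {r : ℕ∞} (hr : 1 ≤ r) (G : DiffM n N r) (Q : DiffM n N r → Prop)
    (hQ : FO n N r Q) (hQG : Q G) {p : N} {m : ℕ} (hm : 1 ≤ m) (hp : G^[m] p = p) :
    ∃ G' : DiffM n N r, Q G' ∧ ∃ (i : ℕ) (χ : OpenPartialHomeomorph N (V n))
      (D : V n →L[ℝ] V n), 1 ≤ i ∧ GoodChart n N χ p ∧ G'^[i] p = p ∧
      HasFDerivAt (fun u => χ (G'^[i] (χ.symm u))) D 0 ∧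
      (D - ContinuousLinearMap.id ℝ (V n)).det ≠ 0 := by
  -- the minimal period
  obtain ⟨i₀, hi₀d⟩ : ∃ i₀ : ℕ, i₀ = Function.minimalPeriod G p := ⟨_, rfl⟩
  have hper : Function.IsPeriodicPt G m p := hp
  have hi₀pos : 0 < i₀ := by
    rw [hi₀d]
    exact hper.minimalPeriod_pos (by omega)
  have hi₀p : G^[i₀] p = p := by
    rw [hi₀d]
    exact Function.isPeriodicPt_minimalPeriod G p
  have hi₀min : ∀ m, 0 < m → m < i₀ → G^[m] p ≠ p := by
    intro m hm0 hmi h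
    rw [hi₀d] at hmi
    exact Function.not_isPeriodicPt_of_pos_of_lt_minimalPeriod hm0.ne' hmi h
  obtain ⟨S, hSd⟩ : ∃ S : Set N, S = (fun j => G^[j] p) '' Ioo 0 i₀ := ⟨_, rfl⟩
  have hSf : S.Finite := by
    rw [hSd]
    exact (finite_Ioo 0 i₀).image _
  have hpS : p ∉ S := by
    rw [hSd]
    rintro ⟨j, hj, hjp⟩
    exact hi₀min j hj.1 hj.2 hjp
  -- the family
  obtain ⟨χ, hg, hχO⟩ := small_chart (n := n) p Sᶜ hSf.isClosed.isOpen_compl hpS
  obtain ⟨F, F', κ, hκ, -, hF, hm, -⟩ := dil_family n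
  obtain ⟨Ψ, H, hfam, hH0, hH, hΨ0, hΨc, hΨi, hΨs, hΨo⟩ := push_family r G hg hF
  set A := χ.symm '' closedBall (0 : V n) (1 / 2) with hA
  have hAs : closedBall (0 : V n) (1 / 2) ⊆ χ.target :=
    (closedBall_subset_closedBall (by norm_num)).trans hg.ball
  have hAc : IsClosed A := ((isCompact_closedBall _ _).image_of_continuousOn
    (χ.continuousOn_symm.mono hAs)).isClosed
  have hSA : ∀ j, 0 < j → j < i₀ → G^[j] p ∉ A := by
    rintro j hj hji ⟨u, hu, hup⟩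
    apply hχO (χ.map_target (hAs hu))
    rw [hSd, hup]
    exact ⟨j, ⟨hj, hji⟩, rfl⟩
  have hΨp : ∀ s, ‖s‖ < κ → Ψ s p = p := by
    intro s hs
    obtain ⟨h1, h2⟩ := hΨs s p hg.src
    apply χ.injOn h1 hg.src
    rw [h2, hg.zero, hm s 0 hs (by simp), smul_zero]
  have hit : ∀ s, ‖s‖ < κ → ∀ m, m ≤ i₀ → (H s)^[m] p = G^[m] p := by
    intro s hs m
    induction m with
    | zero => intro _; rfl
    | succ m ih =>
      intro hmi
      rw [Function.iterate_succ_apply', ih (by omega), hH, Function.iterate_succ_apply' G]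
      rcases Nat.eq_zero_or_pos m with h0 | h0
      · subst h0
        exact congrArg G (hΨp s hs)
      · rw [hΨo s _ (hSA m h0 (by omega))]
  have hsm : ∀ᶠ s in 𝓝 (0 : V 1), ‖s‖ < κ := by
    have := (continuous_norm (E := V 1)).tendsto 0
    rw [norm_zero] at this
    exact this.eventually (gt_mem_nhds hκ)
  have hQe := hQ 1 H hfam (by rw [hH0]; exact hQG)
  have hχ0 : (0 : V n) ∈ χ.target := hAs (by simp)
  have hs0 : χ.symm 0 = p := by rw [← hg.zero, χ.left_inv hg.src]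
  set D : V n →L[ℝ] V n := fderiv ℝ (fun u => χ (G^[i₀] (χ.symm u))) 0 with hD
  have hDd : HasFDerivAt (fun u => χ (G^[i₀] (χ.symm u))) D 0 :=
    (chart_diff hr G i₀ hg.mem hχ0 (by rw [hs0, hi₀p]; exact hg.src)).hasFDerivAt
  have hDs : ∀ s : V 1, ‖s‖ < κ →
      HasFDerivAt (fun u => χ ((H s)^[i₀] (χ.symm u))) ((1 + s 0 : ℝ) • D) 0 := by
    intro s hs
    have h1 : ∀ m, 1 ≤ m → m ≤ i₀ → ∀ᶠ y in 𝓝 p, (H s)^[m] y = G^[m] (Ψ s y) := by
      intro m hm1
      induction m with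
      | zero => omega
      | succ m ih =>
        intro hmi
        rcases Nat.eq_zero_or_pos m with h0 | h0
        · subst h0
          exact Eventually.of_forall fun y => hH s y
        · have h2 : ContinuousAt (fun y => G^[m] (Ψ s y)) p :=
            ((G.continuous.iterate m).comp (hΨc s)).continuousAt
          have h3 : ∀ᶠ y in 𝓝 p, G^[m] (Ψ s y) ∈ Aᶜ := by
            apply h2.eventually
            show Aᶜ ∈ 𝓝 (G^[m] (Ψ s p))
            rw [hΨp s hs]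
            exact hAc.isOpen_compl.mem_nhds (hSA m h0 (by omega))
          filter_upwards [ih h0 (by omega), h3] with y hy1 hy2
          rw [Function.iterate_succ_apply', hy1, hH, hΨo s _ hy2, Function.iterate_succ_apply' G]
    have h4 : ∀ᶠ u in 𝓝 (0 : V n), (H s)^[i₀] (χ.symm u) = G^[i₀] (Ψ s (χ.symm u)) := by
      have h5 : Tendsto χ.symm (𝓝 (0 : V n)) (𝓝 p) := by
        have := χ.continuousAt_symm hχ0
        rwa [ContinuousAt, hs0] at this
      exact h5.eventually (h1 i₀ hi₀pos le_rfl)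
    have h6 : ∀ᶠ u in 𝓝 (0 : V n), ‖u‖ < 1 / 4 := by
      have := (continuous_norm (E := V n)).tendsto 0
      rw [norm_zero] at this
      exact this.eventually (gt_mem_nhds (by norm_num))
    have h7 : HasFDerivAt (fun u : V n => (1 + s 0 : ℝ) • u)
        ((1 + s 0 : ℝ) • ContinuousLinearMap.id ℝ (V n)) 0 :=
      (hasFDerivAt_id (𝕜 := ℝ) (0 : V n)).const_smul (1 + s 0 : ℝ)
    have h8 : HasFDerivAt (fun u => χ (G^[i₀] (χ.symm u))) D
        ((fun u : V n => (1 + s 0 : ℝ) • u) 0) := by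
      show HasFDerivAt (fun u => χ (G^[i₀] (χ.symm u))) D ((1 + s 0 : ℝ) • (0 : V n))
      rw [smul_zero]
      exact hDd
    have h9 := h8.comp (0 : V n) h7
    have h10 : D.comp ((1 + s 0 : ℝ) • ContinuousLinearMap.id ℝ (V n)) = (1 + s 0 : ℝ) • D := by
      ext w
      simp
    rw [h10] at h9
    refine h9.congr_of_eventuallyEq ?_
    filter_upwards [h4, h6] with u hu1 hu2
    show χ ((H s)^[i₀] (χ.symm u)) = χ (G^[i₀] (χ.symm ((1 + s 0 : ℝ) • u)))
    have hut : u ∈ χ.target := hAs (by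
      rw [mem_closedBall, dist_zero_right]
      linarith)
    obtain ⟨k1, k2⟩ := hΨs s (χ.symm u) (χ.map_target hut)
    rw [χ.right_inv hut, hm s u hs hu2] at k2
    rw [hu1, ← k2, χ.left_inv k1]
  -- the choice of the parameter
  let e : ℝ → V 1 := fun τ => WithLp.toLp 2 fun _ => τ
  have he0 : e 0 = 0 := by
    ext i
    rfl
  have hec : Continuous e := by
    have : Continuous (fun τ : ℝ => (fun _ : Fin 1 => τ)) := by fun_prop
    exact (PiLp.continuous_toLp 2 (fun _ : Fin 1 => ℝ)).comp this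
  have het : Tendsto e (𝓝[≠] 0) (𝓝 0) := by
    have := hec.tendsto 0
    rw [he0] at this
    exact this.mono_left nhdsWithin_le_nhds
  have hT : ∀ᶠ τ in 𝓝[≠] (0 : ℝ),
      ((1 + τ) • D - ContinuousLinearMap.id ℝ (V n)).det ≠ 0 := by
    have h1 : Tendsto (fun τ : ℝ => 1 + τ) (𝓝[≠] 0) (𝓝 1) := by
      have h2 : Continuous (fun τ : ℝ => 1 + τ) := by fun_prop
      have h3 := h2.tendsto 0
      simp only [add_zero] at h3
      exact h3.mono_left nhdsWithin_le_nhds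
    have h4 : ({t : ℝ | (t • D - ContinuousLinearMap.id ℝ (V n)).det = 0} \ {1})ᶜ ∈
        𝓝 (1 : ℝ) :=
      ((finite_det D).subset sdiff_subset).isClosed.isOpen_compl.mem_nhds (by simp)
    have h5 : ∀ᶠ τ in 𝓝[≠] (0 : ℝ), 1 + τ ≠ 1 := by
      have h6 : ∀ᶠ τ in 𝓝[≠] (0 : ℝ), τ ≠ 0 := eventually_mem_nhdsWithin
      filter_upwards [h6] with τ h6 h8
      exact h6 (by linarith)
    filter_upwards [h1.eventually h4, h5] with τ h8 h9 h10
    exact h8 ⟨h10, h9⟩
  obtain ⟨τ, h1, h3, h4⟩ := ((het.eventually hsm).and ((het.eventually hQe).and hT)).exists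
  exact ⟨H (e τ), h3, i₀, χ, _, hi₀pos, hg, by rw [hit _ h1 i₀ le_rfl, hi₀p], hDs _ h1, h4⟩

end

/-! ### Dimension one -/

section one

/-- the line -/
noncomputable def ee (τ : ℝ) : V 1 := WithLp.toLp 2 fun _ => τ

theorem ee_zero : ee 0 = 0 := by
  ext i
  rfl

theorem ee_coord (v : V 1) : ee (v 0) = v := by
  ext i
  have : i = 0 := Subsingleton.elim _ _
  rw [this]
  rfl

theorem ee_apply (τ : ℝ) : (ee τ) 0 = τ := rfl

theorem ee_cont : Continuous ee := by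
  have : Continuous (fun τ : ℝ => (fun _ : Fin 1 => τ)) := by fun_prop
  exact (PiLp.continuous_toLp 2 (fun _ : Fin 1 => ℝ)).comp this

theorem ee_deriv (τ : ℝ) : HasDerivAt ee (ee 1) τ := by
  have h1 : HasDerivAt (fun τ : ℝ => τ • ee 1) ((1 : ℝ) • ee 1) τ := (hasDerivAt_id τ).smul_const _
  rw [one_smul] at h1
  refine h1.congr_of_eventuallyEq (Eventually.of_forall fun s => ?_)
  ext i
  show s = s * 1
  rw [mul_one]

variable {N : Type u} [TopologicalSpace N] [ChartedSpace (V 1) N] [IsManifold (𝓡 1) ∞ N]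
  [T2Space N] [CompactSpace N]

/-- In dimension one, nondegenerate periodic points persist. -/
theorem persist {r : ℕ∞} (G : DiffM 1 N r) {p : N} {i : ℕ} {χ : OpenPartialHomeomorph N (V 1)}
    (hg : GoodChart 1 N χ p) (hp : G^[i] p = p) {D : V 1 →L[ℝ] V 1}
    (hD : HasFDerivAt (fun u => χ (G^[i] (χ.symm u))) D 0)
    (hdet : (D - ContinuousLinearMap.id ℝ (V 1)).det ≠ 0) :
    ∃ Q : DiffM 1 N r → Prop, FO 1 N r Q ∧ Q G ∧ ∀ G', Q G' → ∃ y, G'^[i] y = y := by
  have hχ0 : (0 : V 1) ∈ χ.target := hg.ball (by simp)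
  have hs0 : χ.symm 0 = p := by rw [← hg.zero, χ.left_inv hg.src]
  -- the displacement
  obtain ⟨c, hc⟩ : ∃ c : ℝ, c = (D (ee 1)) 0 := ⟨_, rfl⟩
  have hc1 : c ≠ 1 := by
    intro h
    have h1 : D (ee 1) = ee 1 := by
      rw [← ee_coord (D (ee 1)), ← hc, h]
    have h2 := (det_ne_zero_iff D).1 hdet _ h1
    have h3 : (1 : ℝ) = 0 := congrArg (fun v : V 1 => v 0) h2
    exact one_ne_zero h3
  have h1 : HasDerivAt (fun τ : ℝ => χ (G^[i] (χ.symm (ee τ)))) (D (ee 1)) 0 := by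
    have h2 : HasFDerivAt (fun u => χ (G^[i] (χ.symm u))) D (ee 0) := by
      rw [ee_zero]
      exact hD
    exact h2.comp_hasDerivAt 0 (ee_deriv 0)
  have h2 : HasDerivAt (fun τ : ℝ => (χ (G^[i] (χ.symm (ee τ)))) 0 - τ) (c - 1) 0 := by
    have h3 := (EuclideanSpace.proj (𝕜 := ℝ) (0 : Fin 1)).hasFDerivAt.comp_hasDerivAt 0 h1
    have h4 : (EuclideanSpace.proj (𝕜 := ℝ) (0 : Fin 1)) (D (ee 1)) = c := by rw [hc]; rfl
    rw [h4] at h3
    exact h3.sub (hasDerivAt_id 0)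
  obtain ⟨ρ, hρ⟩ : ∃ ρ : ℝ → ℝ, ρ = fun τ : ℝ => (χ (G^[i] (χ.symm (ee τ)))) 0 - τ := ⟨_, rfl⟩
  rw [← hρ] at h2
  have hρ0 : ρ 0 = 0 := by
    rw [hρ]
    show (χ (G^[i] (χ.symm (ee 0)))) 0 - 0 = 0
    rw [ee_zero, hs0, hp, hg.zero]
    simp
  -- sign change
  obtain ⟨ε, hε1, hε⟩ : ∃ ε : ℝ, (ε = 1 ∨ ε = -1) ∧ 0 < ε * (c - 1) := by
    rcases lt_or_gt_of_ne (sub_ne_zero.2 hc1) with h | h
    · exact ⟨-1, Or.inr rfl, by linarith⟩
    · exact ⟨1, Or.inl rfl, by linarith⟩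
  have h3 : ∀ᶠ τ in 𝓝[≠] (0 : ℝ), 0 < ε * (τ⁻¹ * ρ τ) := by
    have h4 := hasDerivAt_iff_tendsto_slope_zero.1 h2
    simp only [zero_add, hρ0, sub_zero, smul_eq_mul] at h4
    exact (h4.const_mul ε).eventually_const_lt hε
  -- a small interval
  have h5 : ∀ᶠ τ in 𝓝 (0 : ℝ), ee τ ∈ closedBall (0 : V 1) 1 ∧ G^[i] (χ.symm (ee τ)) ∈ χ.source := by
    have hc1 : ContinuousAt (fun τ : ℝ => G^[i] (χ.symm (ee τ))) 0 := by
      refine (G.continuous.iterate i).continuousAt.comp ?_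
      refine ContinuousAt.comp ?_ ee_cont.continuousAt
      rw [ee_zero]
      exact χ.continuousAt_symm hχ0
    refine (ee_cont.continuousAt.eventually_mem ?_).and (hc1.eventually_mem ?_)
    · rw [ee_zero]
      exact closedBall_mem_nhds _ one_pos
    · show χ.source ∈ 𝓝 (G^[i] (χ.symm (ee 0)))
      rw [ee_zero, hs0, hp]
      exact χ.open_source.mem_nhds hg.src
  rw [eventually_nhdsWithin_iff] at h3
  obtain ⟨δ, hδ, hδ'⟩ := Metric.eventually_nhds_iff.1 (h3.and h5)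
  obtain ⟨η, hη⟩ : ∃ η, η = δ / 2 := ⟨_, rfl⟩
  have hη0 : 0 < η := by rw [hη]; linarith
  have hIc : ∀ τ ∈ Icc (-η) η, dist τ 0 < δ := by
    intro τ hτ
    rw [Real.dist_0_eq_abs]
    have := abs_le.2 hτ
    linarith
  have htgt : ∀ τ ∈ Icc (-η) η, ee τ ∈ χ.target := fun τ hτ => hg.ball (hδ' (hIc τ hτ)).2.1
  have hsrc : ∀ τ ∈ Icc (-η) η, G^[i] (χ.symm (ee τ)) ∈ χ.source :=
    fun τ hτ => (hδ' (hIc τ hτ)).2.2
  have hmm : -η ∈ Icc (-η) η := ⟨le_rfl, by linarith⟩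
  have hpp : η ∈ Icc (-η) η := ⟨by linarith, le_rfl⟩
  have hs1 : ε * ρ (-η) < 0 := by
    have h6 := (hδ' (hIc _ hmm)).1 (by simp only [mem_compl_iff, mem_singleton_iff]; linarith)
    have h7 : ε * ρ (-η) = (-η) * (ε * ((-η)⁻¹ * ρ (-η))) := by
      field_simp
    rw [h7]
    exact mul_neg_of_neg_of_pos (by linarith) h6
  have hs2 : 0 < ε * ρ η := by
    have h6 := (hδ' (hIc _ hpp)).1 (by simp only [mem_compl_iff, mem_singleton_iff]; linarith)
    have h7 : ε * ρ η = η * (ε * (η⁻¹ * ρ η)) := by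
      field_simp
    rw [h7]
    exact mul_pos hη0 h6
  -- the predicate
  set A : Set N := (fun τ : ℝ => χ.symm (ee τ)) '' Icc (-η) η with hA
  have hAc : IsCompact A := by
    refine isCompact_Icc.image_of_continuousOn ?_
    exact χ.continuousOn_symm.comp ee_cont.continuousOn htgt
  have hopen : ∀ τ : ℝ, IsOpen {y ∈ χ.source | ε * ((χ y) 0 - τ) < 0} ∧
      IsOpen {y ∈ χ.source | 0 < ε * ((χ y) 0 - τ)} := by
    intro τ
    have h6 : ContinuousOn (fun y => ε * ((χ y) 0 - τ)) χ.source := by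
      have h7 : Continuous (fun v : V 1 => ε * (v 0 - τ)) := by fun_prop
      exact h7.comp_continuousOn χ.continuousOn
    exact ⟨h6.isOpen_inter_preimage χ.open_source isOpen_Iio,
      h6.isOpen_inter_preimage χ.open_source isOpen_Ioi⟩
  refine ⟨fun G' => (∀ x ∈ A, G'^[i] x ∈ χ.source) ∧
    (∀ x ∈ ({χ.symm (ee (-η))} : Set N), G'^[i] x ∈ {y ∈ χ.source | ε * ((χ y) 0 - (-η)) < 0}) ∧
    (∀ x ∈ ({χ.symm (ee η)} : Set N), G'^[i] x ∈ {y ∈ χ.source | 0 < ε * ((χ y) 0 - η)}),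
    (FO.maps i hAc χ.open_source).and ((FO.maps i isCompact_singleton (hopen (-η)).1).and
      (FO.maps i isCompact_singleton (hopen η).2)), ⟨?_, ?_, ?_⟩, ?_⟩
  · rintro _ ⟨τ, hτ, rfl⟩
    exact hsrc τ hτ
  · intro x hx
    rw [mem_singleton_iff.1 hx]
    rw [hρ] at hs1
    exact ⟨hsrc _ hmm, hs1⟩
  · intro x hx
    rw [mem_singleton_iff.1 hx]
    rw [hρ] at hs2
    exact ⟨hsrc _ hpp, hs2⟩
  · rintro G' ⟨k1, k2, k3⟩
    have hcont : ContinuousOn (fun τ : ℝ => ε * ((χ (G'^[i] (χ.symm (ee τ)))) 0 - τ))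
        (Icc (-η) η) := by
      have l1 : ContinuousOn (fun τ : ℝ => G'^[i] (χ.symm (ee τ))) (Icc (-η) η) :=
        (G'.continuous.iterate i).comp_continuousOn
          (χ.continuousOn_symm.comp ee_cont.continuousOn htgt)
      have l2 : ContinuousOn (fun τ : ℝ => χ (G'^[i] (χ.symm (ee τ)))) (Icc (-η) η) :=
        χ.continuousOn.comp l1 fun τ hτ => k1 _ ⟨τ, hτ, rfl⟩
      have l3 : Continuous (fun v : V 1 => v 0) := by fun_prop
      exact continuousOn_const.mul ((l3.comp_continuousOn l2).sub continuousOn_id)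
    obtain ⟨τ, hτ, hτ0⟩ := intermediate_value_Icc (by linarith : -η ≤ η) hcont
      (show (0 : ℝ) ∈ Icc _ _ from ⟨(k2 _ rfl).2.le, (k3 _ rfl).2.le⟩)
    have hε0 : ε ≠ 0 := by
      rcases hε1 with h | h <;> rw [h] <;> norm_num
    have l4 : (χ (G'^[i] (χ.symm (ee τ)))) 0 = τ := by
      have := (mul_eq_zero.1 hτ0).resolve_left hε0
      linarith
    refine ⟨χ.symm (ee τ), ?_⟩
    apply χ.injOn (k1 _ ⟨τ, hτ, rfl⟩) (χ.map_target (htgt τ hτ))
    rw [χ.right_inv (htgt τ hτ), ← ee_coord (χ (G'^[i] (χ.symm (ee τ)))), l4]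

end one

end Pool.Agent.W5h32.TX
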