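import Pool.Agent.W5h32.TX.Dens
import Pool.Agent.R773.TE.Base

/-!
# Toral extensions inherit the finiteness of attractors
-/

set_option autoImplicit false
set_option linter.unusedSectionVars false

open scoped Manifold ContDiff Topology
open Filter Set Metric MeasureTheory

universe u v w

namespace Pool.Agent.W5h32.TX

open Pool.Agent.H718R2.G Pool.Agent.W5h32.PT
open Pool.Agent.R773.TE (ProdDiff proj liftD liftD_apply liftD_apply' lf lf_apply exists_open)
open Pool.Agent.H728R2.FA (omegaLim FiniteAttractors IsAttractor)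

section top

variable {X : Type*} [TopologicalSpace X] {Y : Type*} [TopologicalSpace Y] {π : X → Y}
  (hπ : Continuous π) {G : X → X} {g : Y → Y} (hG : ∀ x, π (G x) = g (π x))

include hG in
theorem iter_proj (j : ℕ) (x : X) : π (G^[j] x) = g^[j] (π x) := by
  induction j with
  | zero => rfl
  | succ j ih => rw [Function.iterate_succ_apply', hG, ih, Function.iterate_succ_apply' g]

include hπ hG in
theorem omega_proj {x : X} {S : Set Y} (h : omegaLim g (π x) ⊆ S) : omegaLim G x ⊆ π ⁻¹' S := by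
  intro q hq
  apply h
  intro W hW m
  obtain ⟨j, hj, hj'⟩ := hq (π ⁻¹' W) (hπ.continuousAt.preimage_mem_nhds hW) m
  refine ⟨j, hj, ?_⟩
  rw [← iter_proj hG]
  exact hj'

include hG in
theorem image_proj (hGb : Function.Surjective G) (hgi : Function.Injective g) {S : Set Y}
    (h : g '' S = S) : G '' (π ⁻¹' S) = π ⁻¹' S := by
  ext x
  constructor
  · rintro ⟨y, hy, rfl⟩
    show π (G y) ∈ S
    rw [hG, ← h]
    exact mem_image_of_mem _ hy
  · intro hx
    obtain ⟨y, rfl⟩ := hGb x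
    refine ⟨y, ?_, rfl⟩
    have h1 : π (G y) ∈ g '' S := by
      rw [h]
      exact hx
    obtain ⟨s, hs, hs'⟩ := h1
    rw [hG] at hs'
    show π y ∈ S
    rwa [← hgi hs']

end top

/-- A version of `generic_cover` whose conclusion is that the rotated map is tame. -/
theorem generic_tame {k : ℕ} {X : Type*} [TopologicalSpace X] [CompactSpace X] [T2Space X]
    [SecondCountableTopology X] {a : (Fin k → ℝ) → X → X} (ha : IsAct a) {F : X → X}
    {A : Matrix (Fin k) (Fin k) ℤ}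
    (hF : ∀ t x, F (a t x) = a (rmul A t) (F x))
    (hdet : A.det ≠ 0) (hA : ∀ m, 1 ≤ m → (psum A m).det ≠ 0) (hc : Continuous F)
    {m : ℕ} (M : Fin m → Set X) (hcl : ∀ i, IsClosed (M i)) (hinv : ∀ i, F '' M i = M i)
    (hMa : ∀ i, Inv a (M i)) (htr : ∀ i, TransMod a F (M i))
    (hcov : ∀ p, ∃ i, omegaLim F p ⊆ M i) :
    ∀ᶠ θ in residual (Fin k → ℝ), Tame (rot a F θ) := by
  have h3 := fun i => (trans_generic ha hF hdet hA (hcl i) (hMa i) (hinv i) hc (htr i)).1
  filter_upwards [eventually_countable_forall.2 h3] with θ hθ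
  refine ⟨m, M, hcl, fun i => rot_image ha (hMa i) (hinv i) θ, hθ, fun p => ?_⟩
  obtain ⟨i, hi⟩ := hcov p
  exact ⟨i, omega_rot ha hF (hMa i) θ p hi⟩

variable {n d l k : ℕ} {N : Type u} [TopologicalSpace N] [T2Space N] [CompactSpace N]
  [ChartedSpace (V n) N] [IsManifold (𝓡 n) ∞ N]
  {B : Type v} [TopologicalSpace B] [T2Space B] [CompactSpace B] [ChartedSpace (V d) B]
  [IsManifold (𝓡 d) ∞ B]
  {K : Type w} [TopologicalSpace K] [ChartedSpace (V l) K] [IsManifold (𝓡 l) ∞ K] {r : ℕ∞}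

/-- The map `Θ : B × K → N`. -/
noncomputable def fwd (Θ : ProdDiff n d l N B K) (q : B × K) : N := Θ q

/-- The second coordinate of a point of `N`. -/
noncomputable def fib (Θ : ProdDiff n d l N B K) (x : N) : K := (Θ.symm x).2

/-- In the coordinates `Θ : B × K → N`, the action of the torus on the second factor. -/
noncomputable def fibAct (Θ : ProdDiff n d l N B K) (c : (Fin k → ℝ) → K → K)
    (t : Fin k → ℝ) (x : N) : N :=
  fwd Θ (proj Θ x, c t (fib Θ x))

variable {Θ : ProdDiff n d l N B K} {c : (Fin k → ℝ) → K → K}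

theorem fibAct_apply (t : Fin k → ℝ) (b : B) (y : K) :
    fibAct Θ c t (Θ (b, y)) = Θ (b, c t y) := by
  unfold fibAct fwd fib proj
  rw [Θ.symm_apply_apply]

theorem proj_apply (b : B) (y : K) : proj Θ (Θ (b, y)) = b := by
  unfold proj
  rw [Θ.symm_apply_apply]

theorem proj_fibAct (t : Fin k → ℝ) (x : N) : proj Θ (fibAct Θ c t x) = proj Θ x := by
  unfold fibAct fwd fib proj
  rw [Θ.symm_apply_apply]

theorem proj_cont : Continuous (proj Θ) := continuous_fst.comp Θ.symm.continuous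

theorem eq_Θ (x : N) : x = Θ (proj Θ x, (Θ.symm x).2) := (Θ.apply_symm_apply x).symm

theorem fibAct_torus (hc : IsTorusAction l k K c) : IsTorusAction n k N (fibAct Θ c) where
  smooth := by
    have h1 : ContMDiff (𝓘(ℝ, Fin k → ℝ).prod (𝓡 n)) ((𝓡 d).prod (𝓡 l)) ∞
        (fun p : (Fin k → ℝ) × N => Θ.symm p.2) := Θ.symm.contMDiff.comp contMDiff_snd
    have h2 : ContMDiff (𝓘(ℝ, Fin k → ℝ).prod (𝓡 n)) (𝓡 d) ∞
        (fun p : (Fin k → ℝ) × N => (Θ.symm p.2).1) := contMDiff_fst.comp h1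
    have h3 : ContMDiff (𝓘(ℝ, Fin k → ℝ).prod (𝓡 n)) (𝓡 l) ∞
        (fun p : (Fin k → ℝ) × N => (Θ.symm p.2).2) := contMDiff_snd.comp h1
    have h4 : ContMDiff (𝓘(ℝ, Fin k → ℝ).prod (𝓡 n)) (𝓡 l) ∞
        (fun p : (Fin k → ℝ) × N => c p.1 (Θ.symm p.2).2) :=
      hc.smooth.comp (contMDiff_fst.prodMk h3)
    exact Θ.contMDiff.comp (h2.prodMk h4)
  zero x := by
    rw [eq_Θ (Θ := Θ) x, fibAct_apply, hc.zero]
  add s t x := by
    rw [eq_Θ (Θ := Θ) x, fibAct_apply, fibAct_apply, fibAct_apply, hc.add]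
  int z x := by
    rw [eq_Θ (Θ := Θ) x, fibAct_apply, hc.int]

/-- points in the same fibre are in the same orbit -/
theorem same_orbit (htr : ∀ y y' : K, ∃ t, c t y = y') {x x' : N} (h : proj Θ x = proj Θ x') :
    ∃ t, x' = fibAct Θ c t x := by
  obtain ⟨t, ht⟩ := htr (Θ.symm x).2 (Θ.symm x').2
  refine ⟨t, ?_⟩
  rw [eq_Θ (Θ := Θ) x, fibAct_apply, ht, h]
  exact eq_Θ x'

/-- the lift of a perturbation of the base commutes with the action -/
theorem liftD_act (γ : DiffM d B r) (t : Fin k → ℝ) (x : N) :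
    liftD Θ γ (fibAct Θ c t x) = fibAct Θ c t (liftD Θ γ x) := by
  rw [eq_Θ (Θ := Θ) x, fibAct_apply, liftD_apply, liftD_apply, fibAct_apply]

variable {A : Matrix (Fin k) (Fin k) ℤ} {F : DiffM n N r} {f : DiffM d B r}

theorem proj_lf (hcov : ∀ x, proj Θ (F x) = f (proj Θ x)) (g : DiffM d B r) (x : N) :
    proj Θ (lf Θ F f g x) = g (proj Θ x) := by
  rw [lf_apply, eq_Θ (Θ := Θ) (F x), liftD_apply, proj_apply, hcov]
  show g (f.symm (f (proj Θ x))) = _
  rw [f.symm_apply_apply]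

theorem norm_lf (hF : Normalises (fibAct Θ c) A F) (g : DiffM d B r) :
    Normalises (fibAct Θ c) A (lf Θ F f g) where
  det := hF.det
  root := hF.root
  comm t x := by
    rw [lf_apply, hF.comm, liftD_act, lf_apply]

theorem norm_rot (hc : IsTorusAction l k K c) {G : N → N} (hG : Normalises (fibAct Θ c) A G)
    (θ : Fin k → ℝ) : Normalises (fibAct Θ c) A (rot (fibAct Θ c) G θ) where
  det := hG.det
  root := hG.root
  comm t x := by
    have ha := fibAct_torus (Θ := Θ) hc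
    show fibAct Θ c θ (G (fibAct Θ c t x)) = _
    rw [hG.comm, ← ha.add, add_comm, ha.add]
    rfl

theorem transMod_proj (htr : ∀ y y' : K, ∃ t, c t y = y') [Nonempty K] {G : N → N} {g : B → B}
    (hG : ∀ x, proj Θ (G x) = g (proj Θ x)) {S : Set B}
    (hS : ∃ x ∈ S, S ⊆ closure (range fun j : ℕ => g^[j] x)) :
    TransMod (fibAct Θ c) G (proj Θ ⁻¹' S) := by
  obtain ⟨x₀, hx₀, hd⟩ := hS
  obtain ⟨y₀⟩ := ‹Nonempty K›
  refine ⟨Θ (x₀, y₀), ?_, ?_⟩
  · show proj Θ (Θ (x₀, y₀)) ∈ S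
    rwa [proj_apply]
  · intro z hz
    have hz' : proj Θ z ∈ closure (range fun j : ℕ => g^[j] x₀) := hd hz
    have hΦ : Continuous fun b : B => Θ (b, (Θ.symm z).2) :=
      Θ.continuous.comp (continuous_id.prodMk continuous_const)
    have h1 := image_closure_subset_closure_image hΦ (mem_image_of_mem _ hz')
    have h2 : Θ (proj Θ z, (Θ.symm z).2) = z := (eq_Θ z).symm
    rw [h2] at h1
    refine closure_mono ?_ h1
    rintro _ ⟨_, ⟨j, rfl⟩, rfl⟩
    have h3 : proj Θ (G^[j] (Θ (x₀, y₀))) = proj Θ (Θ (g^[j] x₀, (Θ.symm z).2)) := by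
      rw [iter_proj hG, proj_apply, proj_apply]
    obtain ⟨t, ht⟩ := same_orbit (c := c) htr h3
    exact ⟨t, j, ht⟩

theorem inv_proj (S : Set B) : Inv (fibAct Θ c) (proj Θ ⁻¹' S) := by
  intro t x hx
  show proj Θ (fibAct Θ c t x) ∈ S
  rwa [proj_fibAct]

section main

variable (hr : 1 ≤ r) (hc : IsTorusAction l k K c) (htr : ∀ y y' : K, ∃ t, c t y = y')
  (hF : Normalises (fibAct Θ c) A F) (hcov : ∀ x, proj Θ (F x) = f (proj Θ x))

theorem tame_of_empty [IsEmpty N] (G : N → N) : Tame G :=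
  ⟨0, fun i => i.elim0, fun i => i.elim0, fun i => i.elim0, fun i => i.elim0,
    fun p => (IsEmpty.false p).elim⟩

include hr hc htr hF hcov in
/-- inheritance, for tame maps -/
theorem inherit (h : Near f fun g => Tame g) :
    Near F fun G => Normalises (fibAct Θ c) A G ∧ (∃ g : DiffM d B r, Tame g ∧
      ∀ x, proj Θ (G x) = g (proj Θ x)) ∧ Tame G := by
  intro U hU hFU
  obtain ⟨U', hU', hfU', hl⟩ := exists_open Θ F f hU hFU
  obtain ⟨g, hg, hgt⟩ := h U' hU' hfU'
  have ha := fibAct_torus (Θ := Θ) hc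
  have hpr := proj_lf (Θ := Θ) hcov g
  have hnl := norm_lf (f := f) hF g
  rcases isEmpty_or_nonempty N with hN | ⟨⟨z⟩⟩
  · exact ⟨lf Θ F f g, hl g hg, hnl, ⟨g, hgt, hpr⟩, tame_of_empty _⟩
  have hK : Nonempty K := ⟨(Θ.symm z).2⟩
  have := secondCountable n N
  obtain ⟨κ, hκ, hκU⟩ := rot_mem ha hr (lf Θ F f g) U hU (hl g hg)
  obtain ⟨m, M, h1, h2, h3, h4⟩ := id hgt
  have h5 := generic_tame ha.isAct hnl.comm hnl.det hnl.root (lf Θ F f g).continuous
    (fun i => proj Θ ⁻¹' M i) (fun i => (h1 i).preimage proj_cont)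
    (fun i => image_proj hpr (lf Θ F f g).surjective g.injective (h2 i)) (fun i => inv_proj (M i))
    (fun i => transMod_proj htr hpr (h3 i)) (fun p => by
      obtain ⟨i, hi⟩ := h4 (proj Θ p)
      exact ⟨i, omega_proj proj_cont hpr hi⟩)
  obtain ⟨θ, hθ, h6⟩ := residual_small h5 hκ
  refine ⟨rotD ha (lf Θ F f g) θ, hκU θ hθ, ?_, ⟨g, hgt, fun x => ?_⟩, h6⟩
  · exact norm_rot hc hnl θ
  · rw [rotD_apply, proj_fibAct, hpr]

include hr hc htr hF hcov in
/-- inheritance, for measures -/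
theorem inherit_meas [MeasurableSpace B] [MeasurableSpace N] (ν : Measure B) (μ : Measure N)
    (hνμ : ∀ S : Set B, ν S = 0 ↔ μ (proj Θ ⁻¹' S) = 0)
    (h : Near f fun g => FiniteAttractors ν g) :
    Near F fun G => Normalises (fibAct Θ c) A G ∧ FiniteAttractors μ G := by
  intro U hU hFU
  obtain ⟨U', hU', hfU', hl⟩ := exists_open Θ F f hU hFU
  obtain ⟨g, hg, hgt⟩ := h U' hU' hfU'
  have ha := fibAct_torus (Θ := Θ) hc
  have hpr := proj_lf (Θ := Θ) hcov g
  have hnl := norm_lf (f := f) hF g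
  rcases isEmpty_or_nonempty N with hN | ⟨⟨z⟩⟩
  · refine ⟨lf Θ F f g, hl g hg, hnl, 0, fun i => i.elim0, fun i => i.elim0, ?_⟩
    have : {p : N | ∀ i : Fin 0, ¬ omegaLim (lf Θ F f g) p ⊆ i.elim0} = ∅ := by
      ext p
      exact (IsEmpty.false p).elim
    rw [this, measure_empty]
  have hK : Nonempty K := ⟨(Θ.symm z).2⟩
  obtain ⟨m, Λ, h1, h2⟩ := hgt
  have hmod : FiniteAttractorsMod μ (fibAct Θ c) (lf Θ F f g) := by
    refine ⟨m, fun i => proj Θ ⁻¹' Λ i, fun i => ⟨?_, inv_proj _, transMod_proj htr hpr (h1 i).2.1,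
      ?_⟩, ?_⟩
    · exact image_proj hpr (lf Θ F f g).surjective g.injective (h1 i).1
    · have h3 : μ (proj Θ ⁻¹' {b | omegaLim g b ⊆ Λ i}) ≠ 0 := fun h =>
        (h1 i).2.2.ne' ((hνμ _).2 h)
      refine (pos_iff_ne_zero.2 h3).trans_le (measure_mono fun x hx => ?_)
      exact omega_proj proj_cont hpr hx
    · refine measure_mono_null ?_ ((hνμ _).1 h2)
      intro x hx i hi
      exact hx i (omega_proj proj_cont hpr hi)
  obtain ⟨G, hG, ⟨θ, hθ⟩, h3⟩ :=
    (near_of_mod ha hr (lf Θ F f g) hnl.comm hnl.det hnl.root μ hmod).2.2 U hU (hl g hg)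
  refine ⟨G, hG, ?_, h3⟩
  have e : (G : N → N) = rot (fibAct Θ c) (lf Θ F f g) θ := funext hθ
  rw [e]
  exact norm_rot hc hnl θ

end main

/-! ### The diffeomorphism of the base -/

theorem comm_symm (hF : Normalises (fibAct Θ c) A F) (hc : IsTorusAction l k K c)
    (t : Fin k → ℝ) (x : N) : ∃ s, F.symm (fibAct Θ c t x) = fibAct Θ c s (F.symm x) := by
  obtain ⟨s, hs⟩ := rmul_surj hF.det t
  refine ⟨s, ?_⟩
  apply F.injective
  change F (F.symm _) = F _
  rw [F.apply_symm_apply]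
  have h1 := hF.comm s (F.symm x)
  rw [h1, F.apply_symm_apply]
  congr 1
  exact hs.symm

/-- the diffeomorphism of the base induced by `F` -/
noncomputable def ind (htr : ∀ y y' : K, ∃ t, c t y = y') (hc : IsTorusAction l k K c)
    (hF : Normalises (fibAct Θ c) A F) (y₀ : K) : DiffM d B r where
  toFun b := proj Θ (F (Θ (b, y₀)))
  invFun b := proj Θ (F.symm (Θ (b, y₀)))
  left_inv b := by
    have h1 : proj Θ (F (Θ (b, y₀))) = proj Θ (Θ (proj Θ (F (Θ (b, y₀))), y₀)) :=
      (proj_apply _ _).symm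
    obtain ⟨t, ht⟩ := same_orbit (c := c) htr h1
    obtain ⟨s, hs⟩ := comm_symm hF hc t (F (Θ (b, y₀)))
    show proj Θ (F.symm (Θ (proj Θ (F (Θ (b, y₀))), y₀))) = b
    rw [ht, hs, proj_fibAct, F.symm_apply_apply, proj_apply]
  right_inv b := by
    have h1 : proj Θ (F.symm (Θ (b, y₀))) = proj Θ (Θ (proj Θ (F.symm (Θ (b, y₀))), y₀)) :=
      (proj_apply _ _).symm
    obtain ⟨t, ht⟩ := same_orbit (c := c) htr h1
    show proj Θ (F (Θ (proj Θ (F.symm (Θ (b, y₀))), y₀))) = b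
    rw [ht, hF.comm, proj_fibAct, F.apply_symm_apply, proj_apply]
  contMDiff_toFun := by
    have h1 : ContMDiff (𝓡 n) ((𝓡 d).prod (𝓡 l)) r Θ.symm :=
      Θ.symm.contMDiff.of_le (by exact_mod_cast le_top)
    have h2 : ContMDiff ((𝓡 d).prod (𝓡 l)) (𝓡 n) r Θ :=
      Θ.contMDiff.of_le (by exact_mod_cast le_top)
    exact contMDiff_fst.comp (h1.comp (F.contMDiff.comp
      (h2.comp (contMDiff_id.prodMk contMDiff_const))))
  contMDiff_invFun := by
    have h1 : ContMDiff (𝓡 n) ((𝓡 d).prod (𝓡 l)) r Θ.symm :=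
      Θ.symm.contMDiff.of_le (by exact_mod_cast le_top)
    have h2 : ContMDiff ((𝓡 d).prod (𝓡 l)) (𝓡 n) r Θ :=
      Θ.contMDiff.of_le (by exact_mod_cast le_top)
    exact contMDiff_fst.comp (h1.comp (F.symm.contMDiff.comp
      (h2.comp (contMDiff_id.prodMk contMDiff_const))))

theorem exists_base (htr : ∀ y y' : K, ∃ t, c t y = y') (hc : IsTorusAction l k K c)
    (hF : Normalises (fibAct Θ c) A F) [Nonempty K] :
    ∃ f : DiffM d B r, ∀ x, proj Θ (F x) = f (proj Θ x) := by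
  obtain ⟨y₀⟩ := ‹Nonempty K›
  refine ⟨ind htr hc hF y₀, fun x => ?_⟩
  show proj Θ (F x) = proj Θ (F (Θ (proj Θ x, y₀)))
  have h1 : proj Θ x = proj Θ (Θ (proj Θ x, y₀)) := (proj_apply _ _).symm
  obtain ⟨t, ht⟩ := same_orbit (c := c) htr h1
  rw [ht, hF.comm, proj_fibAct]

/-- In the coordinates `Θ : B × K → N`, where `K` is a torus (a manifold with a transitive smooth
action `c` of `𝕋^k = ℝ^k / ℤ^k`), the diffeomorphism `F` of `N` is a toral extension
`(b, y) ↦ (f b, A y + φ b)`: it normalises the action `fibAct Θ c` of `𝕋^k` on the fibres, with the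
integral matrix `A`. -/
structure IsToralExt (Θ : ProdDiff n d l N B K) (c : (Fin k → ℝ) → K → K)
    (A : Matrix (Fin k) (Fin k) ℤ) (F : N → N) : Prop where
  torus : IsTorusAction l k K c
  trans : ∀ y y' : K, ∃ t, c t y = y'
  norm : Normalises (fibAct Θ c) A F

/-- `G` is tame and has, for every measure, finitely many attractors covering the space. -/
def TameAttr {X : Type*} [TopologicalSpace X] (G : X → X) : Prop :=
  Tame G ∧ ∀ (_ : MeasurableSpace X) (μ : Measure X), FiniteAttractors μ G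

theorem Tame.attr {X : Type*} [TopologicalSpace X] {G : X → X} (h : Tame G) : TameAttr G := by
  refine ⟨h, fun _ μ => ?_⟩
  obtain ⟨m, M, -, h2, h3, h4⟩ := h
  exact finite_of_cover μ G M h2 h3 h4

/-- Inheritance, for tame maps: if `f` is a `C^r` limit of tame diffeomorphisms, then `F` is a `C^r`
limit of tame toral extensions. -/
def InhTame (Θ : ProdDiff n d l N B K) (c : (Fin k → ℝ) → K → K) (A : Matrix (Fin k) (Fin k) ℤ)
    (F : DiffM n N r) (f : DiffM d B r) : Prop :=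
  Near f (fun g => Tame g) → Near F fun G => IsToralExt Θ c A G ∧ TameAttr G

/-- Inheritance, for measures: if `f` is a `C^r` limit of diffeomorphisms with finitely many
attractors covering `B` (for `ν`), then `F` is a `C^r` limit of toral extensions with finitely many
attractors covering `N` (for `μ`). Here `ν` and `μ` are measures such that a subset of `B` is a null
set if and only if its preimage in `N` is one. -/
def InhMeas (Θ : ProdDiff n d l N B K) (c : (Fin k → ℝ) → K → K) (A : Matrix (Fin k) (Fin k) ℤ)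
    (F : DiffM n N r) (f : DiffM d B r) : Prop :=
  ∀ (_ : MeasurableSpace B) (_ : MeasurableSpace N) (ν : Measure B) (μ : Measure N),
    (∀ S : Set B, ν S = 0 ↔ μ (proj Θ ⁻¹' S) = 0) → Near f (fun g => FiniteAttractors ν g) →
    Near F fun G => IsToralExt Θ c A G ∧ FiniteAttractors μ G

theorem main_inherit (hr : 1 ≤ r) (H : IsToralExt Θ c A F)
    (hcov : ∀ x, proj Θ (F x) = f (proj Θ x)) : InhTame Θ c A F f := by
  intro h U hU hFU
  obtain ⟨G, hG, h1, -, h2⟩ := inherit hr H.torus H.trans H.norm hcov h U hU hFU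
  exact ⟨G, hG, ⟨H.torus, H.trans, h1⟩, h2.attr⟩

theorem main_meas (hr : 1 ≤ r) (H : IsToralExt Θ c A F)
    (hcov : ∀ x, proj Θ (F x) = f (proj Θ x)) : InhMeas Θ c A F f := by
  intro _ _ ν μ hνμ h U hU hFU
  obtain ⟨G, hG, h1, h2⟩ := inherit_meas hr H.torus H.trans H.norm hcov ν μ hνμ h U hU hFU
  exact ⟨G, hG, ⟨H.torus, H.trans, h1⟩, h2⟩

end Pool.Agent.W5h32.TX
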